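import Mathlib

/-!
Ideals, antichains and the Milner–Prikry function `F`.
-/

set_option autoImplicit false

namespace Pool.Agent.Lib.MP_e7ecb4_lc

universe u

/-- An ideal of a partial order: an up-directed initial segment. -/
def IsIdeal {P : Type u} [PartialOrder P] (I : Set P) : Prop :=
  IsLowerSet I ∧ ∀ x ∈ I, ∀ y ∈ I, ∃ z ∈ I, x ≤ z ∧ y ≤ z

/-- `P` has no antichain (set of pairwise incomparable elements) of cardinality `m`. -/
def NoAntichain (P : Type u) [PartialOrder P] (m : Cardinal.{u}) : Prop :=
  ∀ A : Set P, IsAntichain (· ≤ ·) A → Cardinal.mk A ≠ m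

/-- `P` is a union of fewer than `l` ideals. -/
def Covered (P : Type u) [PartialOrder P] (l : Cardinal.{u}) : Prop :=
  ∃ S : Set (Set P), (∀ I ∈ S, IsIdeal I) ∧ Cardinal.mk S < l ∧ ⋃₀ S = Set.univ

/-- Every partial order with no antichain of cardinality `m` is a union of fewer than `l` ideals.
`F(m)` is the least `l` with this property. -/
def Bound (m l : Cardinal.{u}) : Prop :=
  ∀ (P : Type u) [PartialOrder P], NoAntichain P m → Covered P l

end Pool.Agent.Lib.MP_e7ecb4_lc
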