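import Mathlib

/-!
The partial order attached to a family of functions `f α ∈ ∏ k, L k` and two sets `E`, `O` of
coordinates: `α < β` iff the first coordinate where `f α` and `f β` differ lies in `E`, `f β` is
smaller there, and `f α ≤ f β` on all coordinates of `O`.
-/

set_option autoImplicit false

namespace Pool.Agent.Lib.MP_e7ecb4_lc

open Filter Cardinal

universe u

variable {L : ℕ → Type u} [∀ k, LinearOrder (L k)] {I : Type u}

/-- The strict order. -/
def Rel (E O : Set ℕ) (f : I → ∀ k, L k) (a b : I) : Prop :=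
  ∃ n ∈ E, (∀ k < n, f a k = f b k) ∧ f b n < f a n ∧ ∀ m ∈ O, f a m ≤ f b m

theorem Rel.irrefl (E O : Set ℕ) (f : I → ∀ k, L k) (a : I) : ¬ Rel E O f a a := by
  rintro ⟨n, -, -, h, -⟩
  exact lt_irrefl _ h

theorem Rel.trans' {E O : Set ℕ} {f : I → ∀ k, L k} {a b c : I} (h1 : Rel E O f a b)
    (h2 : Rel E O f b c) : Rel E O f a c := by
  obtain ⟨n, hn, h1a, h1b, h1c⟩ := h1
  obtain ⟨m, hm, h2a, h2b, h2c⟩ := h2
  have hO : ∀ k ∈ O, f a k ≤ f c k := fun k hk => (h1c k hk).trans (h2c k hk)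
  rcases lt_trichotomy n m with h | h | h
  · refine ⟨n, hn, fun k hk => (h1a k hk).trans (h2a k (hk.trans h)), ?_, hO⟩
    rw [← h2a n h]; exact h1b
  · subst h
    exact ⟨n, hn, fun k hk => (h1a k hk).trans (h2a k hk), h2b.trans h1b, hO⟩
  · refine ⟨m, hm, fun k hk => (h1a k (hk.trans h)).trans (h2a k hk), ?_, hO⟩
    rw [h1a m h]; exact h2b

instance isStrictOrder_rel (E O : Set ℕ) (f : I → ∀ k, L k) : IsStrictOrder I (Rel E O f) where
  irrefl := Rel.irrefl E O f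
  trans := fun _ _ _ h1 h2 => Rel.trans' h1 h2

/-- In a directed set the values at each coordinate stabilise. -/
theorem directed_stab [∀ k, WellFoundedLT (L k)] {E O : Set ℕ} {f : I → ∀ k, L k} {D : Set I}
    (hne : D.Nonempty) (n : ℕ) :
    ∃ b ∈ D, ∀ c ∈ D, (b = c ∨ Rel E O f b c) → ∀ k < n, f c k = f b k := by
  induction n with
  | zero =>
    obtain ⟨b, hb⟩ := hne
    exact ⟨b, hb, fun c _ _ k hk => absurd hk (Nat.not_lt_zero k)⟩
  | succ n ih =>
    obtain ⟨b, hb, hbn⟩ := ih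
    obtain ⟨x, ⟨b', ⟨hb'D, hbb'⟩, rfl⟩, hmin⟩ := (wellFounded_lt (α := L n)).has_min
      ((fun c => f c n) '' {c | c ∈ D ∧ (b = c ∨ Rel E O f b c)})
      ⟨_, b, ⟨hb, Or.inl rfl⟩, rfl⟩
    refine ⟨b', hb'D, fun c hc hbc k hk => ?_⟩
    rcases hbc with rfl | hbc
    · rfl
    have hbc2 : b = c ∨ Rel E O f b c := by
      rcases hbb' with rfl | h
      · exact Or.inr hbc
      · exact Or.inr (h.trans' hbc)
    have hlow : ∀ k < n, f c k = f b' k := fun k hk =>
      (hbn c hc hbc2 k hk).trans (hbn b' hb'D hbb' k hk).symm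
    rcases (Nat.lt_succ_iff.1 hk).lt_or_eq with hk | rfl
    · exact hlow k hk
    obtain ⟨m, -, h1, h2, -⟩ := hbc
    rcases lt_trichotomy m k with h | h | h
    · exact absurd (hlow m h) h2.ne
    · subst h
      exact absurd h2 (hmin _ ⟨c, ⟨hc, hbc2⟩, rfl⟩)
    · exact (h1 k h).symm

/-- A directed set is pointwise bounded on `O`. -/
theorem directed_bdd [∀ k, WellFoundedLT (L k)] [∀ k, Nonempty (L k)] {E O : Set ℕ}
    {f : I → ∀ k, L k} {D : Set I}
    (hD : ∀ x ∈ D, ∀ y ∈ D, ∃ z ∈ D, (x = z ∨ Rel E O f x z) ∧ (y = z ∨ Rel E O f y z)) :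
    ∃ g : ∀ k, L k, ∀ a ∈ D, ∀ m ∈ O, f a m ≤ g m := by
  rcases D.eq_empty_or_nonempty with rfl | hne
  · exact ⟨fun k => Classical.arbitrary _, fun a ha => absurd ha (Set.notMem_empty a)⟩
  choose b hbD hb using fun n => directed_stab (E := E) (O := O) (f := f) hne n
  refine ⟨fun m => f (b (m + 1)) m, fun a ha m hm => ?_⟩
  obtain ⟨z, hz, h1, h2⟩ := hD a ha _ (hbD (m + 1))
  show f a m ≤ f (b (m + 1)) m
  rw [← hb (m + 1) z hz h2 m (Nat.lt_succ_self m)]
  rcases h1 with rfl | ⟨_, -, -, -, h⟩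
  · exact le_rfl
  · exact h m hm

/-- A family that dominates every function on `E ∪ O` modulo finite has a comparable pair. -/
theorem exists_rel [∀ k, Nonempty (L k)] {E O : Set ℕ} (hE : E.Infinite) (hEO : Disjoint E O)
    {f : I → ∀ k, L k}
    (hb : ∀ n m : ℕ, n ≤ m → ∀ g : (∀ k : Fin n, L k) → L m, ∃ b, ∀ t, g t < b)
    {X : Set I} (hX : ∀ h : ∀ k, L k, ∃ b ∈ X, ∀ᶠ k in atTop, k ∈ E ∪ O → h k < f b k) :
    ∃ a ∈ X, ∃ b ∈ X, Rel E O f a b := by
  classical
  obtain ⟨a0, ha0, -⟩ := hX fun k => Classical.arbitrary _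
  -- representatives of nodes
  have hrep : ∀ (n : ℕ) (t : ∀ k : Fin n, L k), ∃ a ∈ X,
      (∃ a' ∈ X, (fun k : Fin n => f a' k) = t) → (fun k : Fin n => f a k) = t := by
    intro n t
    by_cases h : ∃ a' ∈ X, (fun k : Fin n => f a' k) = t
    · obtain ⟨a', ha', h'⟩ := h
      exact ⟨a', ha', fun _ => h'⟩
    · exact ⟨a0, ha0, fun h' => absurd h' h⟩
  choose rep hrepX hrep using hrep
  choose u hu using fun n m (h : n ≤ m) => hb n m h (fun t => f (rep n t) m)
  choose H hH using fun m : ℕ =>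
    Finite.exists_le (fun n : Fin (m + 1) => u n m (Nat.lt_succ_iff.1 n.2))
  -- bounds for the children of nodes
  have hbd : ∀ (n : ℕ) (t : ∀ k : Fin n, L k), ∃ b : L n,
      (∃ b' : L n, ∀ a ∈ X, (fun k : Fin n => f a k) = t → f a n ≤ b') →
        ∀ a ∈ X, (fun k : Fin n => f a k) = t → f a n ≤ b := by
    intro n t
    by_cases h : ∃ b' : L n, ∀ a ∈ X, (fun k : Fin n => f a k) = t → f a n ≤ b'
    · obtain ⟨b', hb'⟩ := h
      exact ⟨b', fun _ => hb'⟩
    · exact ⟨Classical.arbitrary _, fun h' => absurd h' h⟩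
  choose bd hbd using hbd
  choose v hv using fun n => hb n n le_rfl (bd n)
  obtain ⟨b, hbX, hdom⟩ := hX fun k => max (H k) (v k)
  obtain ⟨N, hN⟩ := eventually_atTop.1 hdom
  obtain ⟨n, hnE, hNn⟩ := hE.exists_gt N
  have hunb : ∃ a ∈ X, (fun k : Fin n => f a k) = (fun k : Fin n => f b k) ∧ f b n < f a n := by
    by_contra hcon
    push Not at hcon
    have h1 := hbd n (fun k : Fin n => f b k) ⟨f b n, hcon⟩ b hbX rfl
    have h2 := hv n (fun k : Fin n => f b k)
    have h3 := hN n hNn.le (Or.inl hnE)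
    exact lt_irrefl _ ((h1.trans_lt h2).trans ((le_max_right _ _).trans_lt h3))
  obtain ⟨a', ha'X, ha'1, ha'2⟩ := hunb
  set t : ∀ k : Fin (n + 1), L k := fun k => f a' k with ht
  have hr := hrep (n + 1) t ⟨a', ha'X, rfl⟩
  have hle : ∀ k ≤ n, f (rep (n + 1) t) k = f a' k := fun k hk =>
    congrFun hr ⟨k, Nat.lt_succ_of_le hk⟩
  have hlt : ∀ k < n, f (rep (n + 1) t) k = f b k := fun k hk =>
    (hle k hk.le).trans (congrFun ha'1 ⟨k, hk⟩)
  refine ⟨rep (n + 1) t, hrepX _ _, b, hbX, n, hnE, hlt, ?_, fun m hm => ?_⟩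
  · rw [hle n le_rfl]; exact ha'2
  · rcases lt_trichotomy m n with h | h | h
    · exact (hlt m h).le
    · subst h
      exact absurd hm (Set.disjoint_left.1 hEO hnE)
    · have h1 := hu (n + 1) m h t
      have h2 := hH m ⟨n + 1, Nat.succ_lt_succ h⟩
      have h3 := hN m (hNn.trans h).le (Or.inr hm)
      exact ((h1.trans_le h2).trans ((le_max_left _ _).trans_lt h3)).le

end Pool.Agent.Lib.MP_e7ecb4_lc
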