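import Mathlib

/-!
Existence of a scale: if every small subset of each `L k` is bounded, with small meaning of
cardinality below a fixed cardinal above the continuum, then some restriction of `∏ k, L k` to an
infinite set of coordinates has a true cofinality modulo finite sets.
-/

set_option autoImplicit false

namespace Pool.Agent.Lib.MP_e7ecb4_lc

open Filter Cardinal

universe u

variable {L : ℕ → Type u} [∀ k, LinearOrder (L k)]

/-- Eventual strict domination. -/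
def Lt (f g : ∀ k, L k) : Prop := ∀ᶠ k in atTop, f k < g k

/-- Bounded modulo finite. -/
def Bdd (S : Set (∀ k, L k)) : Prop := ∃ g, ∀ s ∈ S, Lt s g

theorem Lt.irrefl (f : ∀ k, L k) : ¬ Lt f f := fun h => by
  obtain ⟨k, hk⟩ := h.exists
  exact lt_irrefl _ hk

theorem Lt.trans' {f g h : ∀ k, L k} (h1 : Lt f g) (h2 : Lt g h) : Lt f h := by
  filter_upwards [h1, h2] with k a b using a.trans b

theorem exists_chain : ∃ C : Set (∀ k, L k), ¬ Bdd C ∧
    ∀ a ∈ C, ∀ b ∈ C, a = b ∨ Lt a b ∨ Lt b a := by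
  have h := maxChain_spec (r := (Lt : (∀ k, L k) → (∀ k, L k) → Prop))
  refine ⟨maxChain Lt, ?_, fun a ha b hb => ?_⟩
  · rintro ⟨g, hg⟩
    have h1 : IsChain Lt (insert g (maxChain (Lt : (∀ k, L k) → (∀ k, L k) → Prop))) :=
      h.isChain.insert fun b hb _ => Or.inr (hg b hb)
    have h2 := h.2 h1 (Set.subset_insert _ _)
    have h3 : g ∈ maxChain (Lt : (∀ k, L k) → (∀ k, L k) → Prop) := by
      rw [h2]; exact Set.mem_insert _ _
    exact Lt.irrefl g (hg g h3)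
  · by_cases hab : a = b
    · exact Or.inl hab
    · exact Or.inr (h.isChain ha hb hab)

theorem chain_bdd {C : Set (∀ k, L k)} (hC : ¬ Bdd C)
    (hch : ∀ a ∈ C, ∀ b ∈ C, a = b ∨ Lt a b ∨ Lt b a) {S : Set (∀ k, L k)} (hS : S ⊆ C)
    (hb : Bdd S) : ∃ c ∈ C, ∀ s ∈ S, Lt s c := by
  by_contra hcon
  push Not at hcon
  obtain ⟨g, hg⟩ := hb
  refine hC ⟨g, fun c hc => ?_⟩
  obtain ⟨s, hs, hsc⟩ := hcon c hc
  rcases hch c hc s (hS hs) with rfl | h | h
  · exact hg _ hs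
  · exact h.trans' (hg s hs)
  · exact absurd h hsc

theorem small_bdd {c0 : Cardinal.{u}}
    (hb : ∀ k (S : Set (L k)), Cardinal.mk S < c0 → ∃ b, ∀ x ∈ S, x < b)
    {S : Set (∀ k, L k)} (hS : Cardinal.mk S < c0) : ∃ g : ∀ k, L k, ∀ s ∈ S, ∀ k, s k < g k := by
  choose g hg using fun k => hb k ((fun s : ∀ k, L k => s k) '' S) (mk_image_le.trans_lt hS)
  exact ⟨g, fun s hs k => hg k _ ⟨s, hs, rfl⟩⟩

theorem exists_section {α : Type u} (T : Set α) (φ : α → Set ℕ) :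
    ∃ S ⊆ T, Cardinal.mk S ≤ continuum.{u} ∧ ∀ t ∈ T, ∃ s ∈ S, φ s = φ t := by
  obtain ⟨S, hST, hbij⟩ := Set.exists_subset_bijOn T φ
  refine ⟨S, hST, ?_, fun t ht => hbij.surjOn ⟨t, ht, rfl⟩⟩
  have h1 : Function.Injective (fun s : S => φ s) := fun a b h =>
    Subtype.ext (hbij.injOn a.2 b.2 h)
  have h2 := lift_mk_le_lift_mk_of_injective h1
  simpa using h2

theorem exists_coords {c0 : Cardinal.{u}} (hc0 : continuum.{u} < c0)
    (hb : ∀ k (S : Set (L k)), Cardinal.mk S < c0 → ∃ b, ∀ x ∈ S, x < b)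
    {C : Set (∀ k, L k)} (hC : ¬ Bdd C)
    (hch : ∀ a ∈ C, ∀ b ∈ C, a = b ∨ Lt a b ∨ Lt b a) :
    ∃ B : Set ℕ, B.Infinite ∧ ∀ h : ∀ k, L k, ∃ c ∈ C, ∀ᶠ k in atTop, k ∈ B → h k < c k := by
  have h1 : ∀ h : ∀ k, L k, ∃ c ∈ C, ∀ c' ∈ C, ∀ᶠ k in atTop, h k < c' k → h k < c k := by
    intro h
    obtain ⟨S, hSC, hS, hsec⟩ := exists_section C (fun c => {k | h k < c k})
    obtain ⟨g, hg⟩ := small_bdd hb (hS.trans_lt hc0)
    obtain ⟨c, hc, hcS⟩ := chain_bdd hC hch hSC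
      ⟨g, fun s hs => Eventually.of_forall (hg s hs)⟩
    refine ⟨c, hc, fun c' hc' => ?_⟩
    obtain ⟨s, hs, hss⟩ := hsec c' hc'
    filter_upwards [hcS s hs] with k hk hk'
    have : k ∈ {k | h k < s k} := by rw [hss]; exact hk'
    exact lt_trans this hk
  choose c hcC hc using h1
  obtain ⟨S, -, hS, hsec⟩ := exists_section Set.univ (fun h : ∀ k, L k => {k | h k < c h k})
  obtain ⟨h0, hh0⟩ := small_bdd hb (hS.trans_lt hc0)
  refine ⟨{k | h0 k < c h0 k}, fun hfin => ?_, fun h => ⟨c h, hcC h, ?_⟩⟩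
  · obtain ⟨g, hg⟩ := small_bdd hb (S := {h0}) (by
      rw [mk_singleton]
      exact (one_lt_aleph0.trans_le aleph0_le_continuum).trans hc0)
    refine hC ⟨g, fun c' hc' => ?_⟩
    have h2 : ∀ᶠ k in atTop, k ∉ {k | h0 k < c h0 k} := by
      rw [← Nat.cofinite_eq_atTop]
      exact hfin.eventually_cofinite_notMem
    filter_upwards [h2, hc h0 c' hc'] with k hk1 hk2
    exact (not_lt.1 fun h => hk1 (hk2 h)).trans_lt (hg h0 rfl k)
  · obtain ⟨h', hh', heq⟩ := hsec h trivial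
    filter_upwards [hc h' (c h0) (hcC h0)] with k hk hkB
    have : k ∈ {k | h' k < c h' k} := hk ((hh0 h' hh' k).trans hkB)
    rw [heq] at this
    exact this

theorem exists_scale {c0 : Cardinal.{u}} (hc0 : continuum.{u} < c0)
    (hb : ∀ k (S : Set (L k)), Cardinal.mk S < c0 → ∃ b, ∀ x ∈ S, x < b) :
    ∃ (μ : Cardinal.{u}) (J : Type u) (s : J → ∀ k, L k) (B : Set ℕ), c0 ≤ μ ∧ B.Infinite ∧
      (∀ X : Set J, Cardinal.mk X = μ → ∀ h : ∀ k, L k,
        ∃ b ∈ X, ∀ᶠ k in atTop, k ∈ B → h k < s b k) ∧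
      ∀ O ⊆ B, O.Infinite → ∀ S : Set (Set J), Cardinal.mk S < μ →
        (∀ D ∈ S, ∃ g : ∀ k, L k, ∀ a ∈ D, ∀ m ∈ O, s a m ≤ g m) → ⋃₀ S ≠ Set.univ := by
  obtain ⟨C, hC, hch⟩ := exists_chain (L := L)
  obtain ⟨B, hB, hdom⟩ := exists_coords hc0 hb hC hch
  obtain ⟨μ, ⟨S0, ⟨hS0C, hS0⟩, hμ⟩, hmin⟩ := (wellFounded_lt (α := Cardinal.{u})).has_min
    ((fun S : Set (∀ k, L k) => Cardinal.mk S) '' {S | S ⊆ C ∧ ¬ Bdd S})
    ⟨_, C, ⟨subset_rfl, hC⟩, rfl⟩
  have hmin' : ∀ S ⊆ C, Cardinal.mk S < μ → Bdd S := fun S hS hlt => by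
    by_contra hcon
    exact hmin _ ⟨S, ⟨hS, hcon⟩, rfl⟩ hlt
  have hμ' : Cardinal.mk S0 = μ := hμ
  obtain ⟨e⟩ : Nonempty (μ.ord.ToType ≃ S0) := by
    rw [← Cardinal.eq, mk_ord_toType, hμ']
  let s : μ.ord.ToType → ∀ k, L k := fun i => e i
  have hsC : ∀ i, s i ∈ C := fun i => hS0C (e i).2
  -- the record-breaking indices are cofinal
  have hcof : ∀ c ∈ C, ∃ i, (∀ j < i, Lt (s j) (s i)) ∧ ¬ Lt (s i) c := by
    intro c hc
    have hne : {i | ¬ Lt (s i) c}.Nonempty := by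
      by_contra hcon
      refine hS0 ⟨c, fun x hx => ?_⟩
      by_contra hx'
      refine hcon ⟨e.symm ⟨x, hx⟩, ?_⟩
      simpa [s] using hx'
    obtain ⟨i, hi, himin⟩ := (wellFounded_lt (α := μ.ord.ToType)).has_min _ hne
    refine ⟨i, fun j hj => ?_, hi⟩
    have hj' : Lt (s j) c := by
      by_contra hcon
      exact himin j hcon hj
    rcases hch c hc (s i) (hsC i) with h | h | h
    · rw [← h]; exact hj'
    · exact hj'.trans' h
    · exact absurd h hi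
  have hone : (1 : Cardinal.{u}) < c0 := (one_lt_aleph0.trans_le aleph0_le_continuum).trans hc0
  have hcof2 : ∀ c ∈ C, ∃ i, (∀ j < i, Lt (s j) (s i)) ∧ Lt c (s i) := by
    intro c hc
    obtain ⟨g, hg⟩ := small_bdd hb (S := {c}) (by rw [mk_singleton]; exact hone)
    obtain ⟨c', hc', hcc'⟩ := chain_bdd hC hch (S := {c}) (by simpa using hc)
      ⟨g, fun x hx => Eventually.of_forall (hg x hx)⟩
    obtain ⟨i, hi1, hi2⟩ := hcof c' hc'
    refine ⟨i, hi1, ?_⟩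
    rcases hch c' hc' (s i) (hsC i) with h | h | h
    · rw [← h]; exact hcc' c rfl
    · exact (hcc' c rfl).trans' h
    · exact absurd h hi2
  refine ⟨μ, {i // ∀ j < i, Lt (s j) (s i)}, fun i => s i, B, ?_, hB, ?_, ?_⟩
  · by_contra hcon
    obtain ⟨g, hg⟩ := small_bdd hb (S := S0) (hμ'.trans_lt (not_le.1 hcon))
    exact hS0 ⟨g, fun x hx => Eventually.of_forall (hg x hx)⟩
  · intro X hX h
    obtain ⟨c, hc, hhc⟩ := hdom h
    obtain ⟨i, hi1, hi2⟩ := hcof2 c hc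
    have hex : ∃ b ∈ X, i ≤ b.1 := by
      by_contra hcon
      push Not at hcon
      have h1 : Cardinal.mk X ≤ Cardinal.mk (Set.Iio i) :=
        mk_le_of_injective (f := fun x : X => (⟨x.1.1, hcon x.1 x.2⟩ : Set.Iio i))
          fun a b hab => Subtype.ext (Subtype.ext (Subtype.mk.inj hab))
      have h2 : Cardinal.mk (Set.Iio i) < μ := by
        simpa using mk_Iio_lt i (by simp)
      exact lt_irrefl _ ((hX.symm.trans_le h1).trans_lt h2)
    obtain ⟨b, hbX, hib⟩ := hex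
    have hcb : Lt c (s b) := by
      rcases hib.lt_or_eq with h' | h'
      · exact hi2.trans' (b.2 i h')
      · rw [← h']; exact hi2
    refine ⟨b, hbX, ?_⟩
    filter_upwards [hhc, hcb] with k h1 h2 hk using (h1 hk).trans h2
  · intro O hOB hO S hS hbdd huniv
    have h1 : ∀ D : S, ∃ c ∈ C, ∀ a ∈ D.1, Lt (s a.1) c := by
      rintro ⟨D, hD⟩
      obtain ⟨g, hg⟩ := hbdd D hD
      obtain ⟨c, hc, hgc⟩ := hdom g
      refine ⟨c, hc, fun a ha => ?_⟩
      have hfr : ∃ᶠ k in atTop, s a.1 k < c k := by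
        have : ∃ᶠ k in atTop, k ∈ O := Nat.frequently_atTop_iff_infinite.2 hO
        refine (this.and_eventually hgc).mono fun k hk => ?_
        exact (hg a ha k hk.1).trans_lt (hk.2 (hOB hk.1))
      rcases hch c hc (s a.1) (hsC _) with h | h | h
      · obtain ⟨k, hk⟩ := hfr.exists
        rw [h] at hk
        exact absurd hk (lt_irrefl _)
      · obtain ⟨k, hk1, hk2⟩ := (hfr.and_eventually h).exists
        exact absurd hk1 (not_lt.2 hk2.le)
      · exact h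
    choose c hcC hc using h1
    have h2 : Set.range c ⊆ C := by
      rintro _ ⟨D, rfl⟩
      exact hcC D
    obtain ⟨c', hc', hcc'⟩ := chain_bdd hC hch h2 (hmin' _ h2 (mk_range_le.trans_lt hS))
    obtain ⟨i, hi1, hi2⟩ := hcof c' hc'
    have h3 : (⟨i, hi1⟩ : {i // ∀ j < i, Lt (s j) (s i)}) ∈ ⋃₀ S := by
      rw [huniv]; trivial
    obtain ⟨D, hD, hiD⟩ := h3
    exact hi2 ((hc ⟨D, hD⟩ _ hiD).trans' (hcc' _ ⟨_, rfl⟩))

end Pool.Agent.Lib.MP_e7ecb4_lc
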