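import Mathlib
import Pool.Agent.Lib.MP_e7ecb4_lc.Defs
import Pool.Agent.Lib.MP_e7ecb4_lc.Order
import Pool.Agent.Lib.MP_e7ecb4_lc.Scale

set_option autoImplicit false

namespace Pool.Agent.Lib.MP_e7ecb4_lc

open Filter Cardinal

universe u

/-- The iterated successors of `max κ 𝔠`. -/
noncomputable def cs (κ : Cardinal.{u}) : ℕ → Cardinal.{u}
  | 0 => Order.succ (max κ continuum)
  | n + 1 => Order.succ (cs κ n)

theorem cs_strictMono (κ : Cardinal.{u}) : StrictMono (cs κ) :=
  strictMono_nat_of_lt_succ fun _ => Order.lt_succ _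

theorem continuum_lt_cs (κ : Cardinal.{u}) : continuum.{u} < cs κ 0 :=
  (le_max_right _ _).trans_lt (Order.lt_succ _)

theorem cs_regular (κ : Cardinal.{u}) (n : ℕ) : (cs κ n).IsRegular := by
  cases n with
  | zero => exact isRegular_succ (aleph0_le_continuum.trans (le_max_right _ _))
  | succ n =>
    exact isRegular_succ ((aleph0_le_continuum.trans (continuum_lt_cs κ).le).trans
      ((cs_strictMono κ).monotone (Nat.zero_le n)))

theorem bdd_of_regular {c : Cardinal.{u}} (hc : c.IsRegular) (S : Set c.ord.ToType)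
    (hS : Cardinal.mk S < c) : ∃ b, ∀ x ∈ S, x < b := by
  rw [← not_isCofinal_iff]
  intro h
  have := Order.cof_le h
  rw [Ordinal.cof_toType, hc.cof_ord] at this
  exact lt_irrefl _ (this.trans_lt hS)

theorem nodes_lt (κ : Cardinal.{u}) {n m : ℕ} (h : n ≤ m) :
    Cardinal.mk (∀ k : Fin n, (cs κ k).ord.ToType) < cs κ m := by
  rw [mk_pi, prod_eq_of_fintype]
  simp only [mk_ord_toType, lift_id']
  refine Finset.prod_induction _ (fun x => x < cs κ m) (fun a b ha hb => ?_) ?_ ?_
  · exact mul_lt_of_lt (cs_regular κ m).aleph0_le ha hb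
  · exact one_lt_aleph0.trans_le (cs_regular κ m).aleph0_le
  · intro k _
    exact cs_strictMono κ (k.2.trans_le h)

theorem main (κ : Cardinal.{u}) :
    ∃ μ : Cardinal.{u}, κ ≤ μ ∧ ℵ₀ ≤ μ ∧ ∀ l : Cardinal.{u}, Bound μ l → μ < l := by
  have : ∀ k, Nonempty (cs κ k).ord.ToType := fun k => by
    rw [← mk_ne_zero_iff, mk_ord_toType]
    exact (cs_regular κ k).pos.ne'
  obtain ⟨μ, J, s, B, hμ, hB, hdom, hcov⟩ :=
    exists_scale (L := fun k => (cs κ k).ord.ToType) (continuum_lt_cs κ) fun k S hS =>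
      bdd_of_regular (cs_regular κ k) S (hS.trans_le ((cs_strictMono κ).monotone (Nat.zero_le k)))
  refine ⟨μ, ((le_max_left _ _).trans (Order.le_succ _)).trans hμ,
    (cs_regular κ 0).aleph0_le.trans hμ, fun l hl => ?_⟩
  -- split `B` into two infinite sets
  let e : ℕ ↪ B := hB.natEmbedding B
  let E : Set ℕ := Set.range fun n => (e (2 * n) : ℕ)
  let O : Set ℕ := Set.range fun n => (e (2 * n + 1) : ℕ)
  have hE : E.Infinite := Set.infinite_range_of_injective fun a b hab => by
    have := e.injective (Subtype.ext hab); omega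
  have hO : O.Infinite := Set.infinite_range_of_injective fun a b hab => by
    have := e.injective (Subtype.ext hab); omega
  have hEO : Disjoint E O := by
    rw [Set.disjoint_left]
    rintro _ ⟨a, rfl⟩ ⟨b, hb⟩
    have := e.injective (Subtype.ext hb); omega
  have hEB : E ⊆ B := by
    rintro _ ⟨a, rfl⟩; exact (e _).2
  have hOB : O ⊆ B := by
    rintro _ ⟨a, rfl⟩; exact (e _).2
  by_contra hlt
  obtain ⟨S, hS1, hS2, hS3⟩ := @hl J (partialOrderOfSO (Rel E O s)) (by
    intro A hA hcard
    obtain ⟨a, ha, b, hb, hab⟩ := exists_rel (f := s) hE hEO (X := A)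
      (fun n m hnm g => by
        obtain ⟨b, hb⟩ := bdd_of_regular (cs_regular κ m) (Set.range g)
          (mk_range_le.trans_lt (nodes_lt κ hnm))
        exact ⟨b, fun t => hb _ ⟨t, rfl⟩⟩)
      (fun h => by
        obtain ⟨b, hb, hh⟩ := hdom A hcard h
        exact ⟨b, hb, hh.mono fun k hk hk' => hk (hk'.elim (@hEB k) (@hOB k))⟩)
    have hne : a ≠ b := by
      rintro rfl
      exact Rel.irrefl E O s a hab
    exact hA ha hb hne (Or.inr hab))
  exact hcov O hOB hO S (hS2.trans_le (not_lt.1 hlt))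
    (fun D hD => directed_bdd (E := E) (hS1 D hD).2) hS3

end Pool.Agent.Lib.MP_e7ecb4_lc
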