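import Mathlib
import Pool.Agent.Lib.MP_e7ecb4_lc.Defs
import Pool.Agent.Lib.MP_e7ecb4_lc.Main

/-! The earlier hand-in (a statement about the cardinals of the ambient theory), kept here after it
was replaced by the statement on formal provability from ZFC. -/

open Pool.Agent.Lib.MP_e7ecb4_lc

namespace Pool.Agent.Lib.MP_e7ecb4_lc.Ambient

universe u

/-- There are arbitrarily large infinite cardinals `μ` with `F(μ) > μ`: every cardinal `l` such
that all orders without antichains of size `μ` are unions of fewer than `l` ideals is
larger than `μ`. -/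
theorem notIdentity (κ : Cardinal.{u}) :
    ∃ μ : Cardinal.{u}, κ ≤ μ ∧ Cardinal.aleph0 ≤ μ ∧ ∀ l : Cardinal.{u}, Bound μ l → μ < l :=
  main κ

end Pool.Agent.Lib.MP_e7ecb4_lc.Ambient
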