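import Mathlib
import Pool.Agent.Lib.Common.ZfcProv.Sem

/-!
The order on a product of ordinals, in an arbitrary model of ZFC.
-/

set_option autoImplicit false
set_option linter.unusedSectionVars false
set_option linter.unusedVariables false
set_option synthInstance.maxSize 100000

namespace Pool.Agent.Lib.MP_60e7f9_lc.Prov

open Pool.Agent.Lib.Common.Forcing

variable {M : Type} [Mod M] {α : Type} [Env M α]

/-- `P` is the product of the ordinals `L k`; subsets of `L m` of size at most `|W m|` are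
bounded, and `W m` contains `c` and all initial segments of length at most `m`. -/
structure Ctx (L W P c : M) : Prop where
  od : ∀ k ∈ om M, Od (ap L k)
  mem : ∀ f, f ∈ P ↔ Fn f (om M) ∧ ∀ k ∈ om M, ap f k ∈ ap L k
  bdd : ∀ m ∈ om M, ∀ Z, Z ⊆ ap L m → Le Z (ap W m) → ∃ b ∈ ap L m, Z ⊆ b
  nod : ∀ m ∈ om M, ∀ f ∈ P, ∀ n, n ⊆ m → rs f n ∈ ap W m
  sub : ∀ m ∈ om M, c ⊆ ap W m

/-- Eventual domination on `B`. -/
def LtB (B f g : M) : Prop := ∃ N ∈ om M, ∀ k ∈ B, N ⊆ k → ap f k ∈ ap g k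

instance (s t u : α → M) [Tm s] [Tm t] [Tm u] : Df M fun a => LtB (s a) (t a) (u a) := by
  unfold LtB; infer_instance

/-- Unbounded sets of natural numbers. -/
def Unb (B : M) : Prop := B ⊆ om M ∧ ∀ N ∈ om M, ∃ k ∈ B, N ⊆ k

/-- The strict order. -/
def RelF (E O f g : M) : Prop := ∃ n ∈ E, (∀ k ∈ n, ap f k = ap g k) ∧ ap g n ∈ ap f n ∧
  ∀ m ∈ O, ap f m ⊆ ap g m

instance (s t u v : α → M) [Tm s] [Tm t] [Tm u] [Tm v] :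
    Df M fun a => RelF (s a) (t a) (u a) (v a) := by
  unfold RelF; infer_instance

variable {L W P c E O B f g h : M}

theorem Ctx.val (H : Ctx L W P c) (hf : f ∈ P) {k : M} (hk : k ∈ om M) : ap f k ∈ ap L k :=
  ((H.mem f).1 hf).2 k hk

theorem Ctx.vod (H : Ctx L W P c) (hf : f ∈ P) {k : M} (hk : k ∈ om M) : Od (ap f k) :=
  (H.od k hk).mem (H.val hf hk)

theorem Ctx.bd (H : Ctx L W P c) {m A : M} (hm : m ∈ om M) (hA : Le A (ap W m))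
    (r : M → M → Prop) [Df M fun z : (Unit × M) × M => r z.1.2 z.2]
    (tot : ∀ x ∈ A, ∃ y, y ∈ ap L m ∧ r x y) : ∃ b ∈ ap L m, ∀ x ∈ A, ∃ y ∈ b, r x y := by
  obtain ⟨f, -, hf⟩ := ch A (fun x y => y ∈ ap L m ∧ r x y) tot
  obtain ⟨b, b1, b2⟩ := H.bdd m hm (im f A) (fun y hy => by
    obtain ⟨x, hx, rfl⟩ := m_im.1 hy
    exact (hf x hx).1) ((le_im f A).trans hA)
  exact ⟨b, b1, fun x hx => ⟨_, b2 _ (m_im.2 ⟨x, hx, rfl⟩), (hf x hx).2⟩⟩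

theorem Ctx.pick (H : Ctx L W P c) (r : M → M → Prop)
    [Df M fun z : (Unit × M) × M => r z.1.2 z.2]
    (tot : ∀ k ∈ om M, ∃ y, y ∈ ap L k ∧ r k y) : ∃ f ∈ P, ∀ k ∈ om M, r k (ap f k) := by
  obtain ⟨f, f1, hf⟩ := ch (om M) (fun k y => y ∈ ap L k ∧ r k y) tot
  exact ⟨f, (H.mem f).2 ⟨f1, fun k hk => (hf k hk).1⟩, fun k hk => (hf k hk).2⟩

theorem Ctx.small (H : Ctx L W P c) {S : M} (hS : S ⊆ P) (h : Le S c) :
    ∃ g ∈ P, ∀ k ∈ om M, ∀ s ∈ S, ap s k ∈ ap g k :=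
  H.pick (fun k y => ∀ s ∈ S, ap s k ∈ y) fun k hk => by
    obtain ⟨b, b1, b2⟩ := H.bd hk (h.trans (le_of_sub (H.sub k hk))) (fun s y => y = ap s k)
      fun s hs => ⟨_, H.val (hS s hs) hk, rfl⟩
    exact ⟨b, b1, fun s hs => by
      obtain ⟨y, y1, rfl⟩ := b2 s hs
      exact y1⟩

theorem RelF.irrefl : ¬ RelF E O f f := fun ⟨_, _, _, h, _⟩ => not_mem_self _ h

theorem RelF.trans (H : Ctx L W P c) (hE : E ⊆ om M) (hf : f ∈ P) (h1 : RelF E O f g)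
    (h2 : RelF E O g h) : RelF E O f h := by
  obtain ⟨n, hn, a1, a2, a3⟩ := h1
  obtain ⟨m, hm, b1, b2, b3⟩ := h2
  have hO : ∀ k ∈ O, ap f k ⊆ ap h k := fun k hk => sub_trans (a3 k hk) (b3 k hk)
  have on := od_om.mem (hE n hn)
  have om' := od_om.mem (hE m hm)
  rcases od_tri n on m om' with e | rfl | e
  · exact ⟨n, hn, fun k hk => (a1 k hk).trans (b1 k (om'.tr hk e)), b1 n e ▸ a2, hO⟩
  · exact ⟨n, hn, fun k hk => (a1 k hk).trans (b1 k hk), (H.vod hf (hE n hn)).tr b2 a2, hO⟩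
  · exact ⟨m, hm, fun k hk => (a1 k (on.tr hk e)).trans (b1 k hk), (a1 m e).symm ▸ b2, hO⟩

theorem Ctx.stab (H : Ctx L W P c) (hE : E ⊆ om M) {D b0 : M} (hD : D ⊆ P) (h0 : b0 ∈ D) :
    ∀ n ∈ om M, ∃ b ∈ D, ∀ c ∈ D, (b = c ∨ RelF E O b c) → ∀ k ∈ n, ap c k = ap b k := by
  refine om_ind _ ⟨b0, h0, by simp⟩ fun n hn ⟨b, hb, ih⟩ => ?_
  obtain ⟨_, -, ⟨b', b1, b2, rfl⟩, hmin⟩ := od_min
    (fun x => ∃ c ∈ D, (b = c ∨ RelF E O b c) ∧ x = ap c n) (H.vod (hD b hb) hn)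
    ⟨b, hb, .inl rfl, rfl⟩
  refine ⟨b', b1, fun c hc hbc k hk => ?_⟩
  rcases hbc with rfl | hbc
  · rfl
  have h2 : b = c ∨ RelF E O b c := .inr (b2.elim (· ▸ hbc) fun e => e.trans H hE (hD b hb) hbc)
  have hl : ∀ k ∈ n, ap c k = ap b' k := fun k hk => (ih c hc h2 k hk).trans (ih b' b1 b2 k hk).symm
  rcases m_sc.1 hk with hk | rfl
  · exact hl k hk
  obtain ⟨m, hm, a1, a2, -⟩ := hbc
  rcases od_tri m (od_om.mem (hE m hm)) k (od_om.mem hn) with e | rfl | e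
  · exact absurd (hl m e ▸ a2) (not_mem_self _)
  · exact absurd ⟨c, hc, h2, rfl⟩ (hmin _ a2)
  · exact (a1 k e).symm

theorem Ctx.dir (H : Ctx L W P c) (hE : E ⊆ om M) (hO : O ⊆ om M) {D : M} (hD : D ⊆ P)
    (h : ∀ x ∈ D, ∀ y ∈ D, ∃ z ∈ D, (x = z ∨ RelF E O x z) ∧ (y = z ∨ RelF E O y z)) :
    ∃ g ∈ P, ∀ a ∈ D, ∀ m ∈ O, ap a m ⊆ ap g m := by
  by_cases h0 : ∃ b, b ∈ D
  · obtain ⟨b0, h0⟩ := h0
    obtain ⟨g, g1, g2⟩ := H.pick (fun m y => ∃ b ∈ D, (∀ c ∈ D, (b = c ∨ RelF E O b c) →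
      ∀ k ∈ sc m, ap c k = ap b k) ∧ y = ap b m) fun m hm => by
        obtain ⟨b, b1, b2⟩ := H.stab (O := O) hE hD h0 _ (sc_om hm)
        exact ⟨_, H.val (hD b b1) hm, b, b1, b2, rfl⟩
    refine ⟨g, g1, fun a ha m hm => ?_⟩
    obtain ⟨b, b1, b2, e⟩ := g2 m (hO m hm)
    obtain ⟨z, hz, h1, h2⟩ := h a ha b b1
    rw [e, ← b2 z hz h2 m (mem_sc m)]
    rcases h1 with rfl | ⟨_, -, -, -, h1⟩
    exacts [sub_rfl, h1 m hm]
  · obtain ⟨g, g1, -⟩ := H.small (emp_sub P) (le_of_sub (emp_sub c))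
    exact ⟨g, g1, fun a ha => absurd ⟨a, ha⟩ h0⟩

theorem rs_val {a a' n n' k : M} (h : Fn a (om M)) (h' : Fn a' (om M)) (e : rs a n = rs a' n')
    (hk : k ∈ n') (hk' : k ∈ om M) : ap a k = ap a' k :=
  (h.op_iff.1 (op_rs.1 (e ▸ op_rs.2 ⟨h'.op_iff.2 ⟨hk', rfl⟩, hk⟩)).1).2.symm

theorem Ctx.rel (H : Ctx L W P c) (hE : Unb E) (hO : O ⊆ om M) (hEO : ∀ k ∈ E, k ∉ O) {X : M}
    (hX : X ⊆ P) (hd : ∀ h ∈ P, ∃ b ∈ X, LtB (E ∪ O) h b) : ∃ a ∈ X, ∃ b ∈ X, RelF E O a b := by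
  have fn : ∀ a ∈ X, Fn a (om M) := fun a ha => ((H.mem a).1 (hX a ha)).1
  obtain ⟨g0, g1, -⟩ := H.small (emp_sub P) (le_of_sub (emp_sub c))
  obtain ⟨a0, h0, -⟩ := hd g0 g1
  obtain ⟨ρ, -, hρ⟩ := ch (sU (im W (om M)))
    (fun t a => a ∈ X ∧ ∀ a' ∈ X, ∀ n ∈ om M, t = rs a' n → ∀ k ∈ n, ap a k = ap a' k)
    fun t _ => by
      by_cases e : ∃ a ∈ X, ∃ n, t = rs a n
      · obtain ⟨a, ha, n, rfl⟩ := e
        exact ⟨a, ha, fun a' ha' n' hn' e k hk => rs_val (fn a ha) (fn a' ha') e hk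
          (od_om.tr hk hn')⟩
      · exact ⟨a0, h0, fun a ha n _ e' => absurd ⟨a, ha, n, e'⟩ e⟩
  have hW : ∀ m ∈ om M, ∀ t ∈ ap W m, t ∈ sU (im W (om M)) := fun m hm t ht =>
    m_sU.2 ⟨_, m_im.2 ⟨m, hm, rfl⟩, ht⟩
  obtain ⟨h, h1, h2⟩ := H.pick (fun m b => ∀ t ∈ ap W m, ∃ y ∈ b, ap (ap ρ t) m ⊆ y ∧
    ((∃ y' ∈ ap L m, ∀ a ∈ X, t = rs a m → ap a m ⊆ y') → ∀ a ∈ X, t = rs a m → ap a m ⊆ y))
    fun m hm => H.bd hm le_rfl' _ fun t ht => by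
      have v := H.val (hX _ (hρ t (hW m hm t ht)).1) hm
      by_cases e : ∃ y' ∈ ap L m, ∀ a ∈ X, t = rs a m → ap a m ⊆ y'
      · obtain ⟨y, y1, y2⟩ := e
        exact ⟨_, (H.od m hm).union_mem v y1, fun z hz => m_union.2 (.inl hz),
          fun _ a ha e z hz => m_union.2 (.inr (y2 a ha e z hz))⟩
      · exact ⟨_, v, sub_rfl, fun e' => absurd e' e⟩
  obtain ⟨b, hb, N, hN, hN'⟩ := hd h h1
  obtain ⟨n, hn, hNn⟩ := hE.2 N hN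
  have hn' := hE.1 n hn
  have key : ∀ m ∈ E ∪ O, m ∈ om M → N ⊆ m → ∀ x y, x ⊆ y → y ∈ ap h m → Od x → x ∈ ap b m :=
    fun m hm hm' e x y e1 e2 ox => ox.sub_mem (H.vod (hX b hb) hm') e1
      ((H.vod (hX b hb) hm').tr e2 (hN' m hm e))
  obtain ⟨a', ha', e1, e2⟩ : ∃ a ∈ X, rs b n = rs a n ∧ ap b n ∈ ap a n := by
    by_contra hc
    obtain ⟨y, y1, -, y2⟩ := h2 n hn' _ (H.nod n hn' b (hX b hb) n sub_rfl)
    exact not_mem_self _ (key n (m_union.2 (.inl hn)) hn' hNn _ y (y2 ⟨_, H.val (hX b hb) hn',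
      fun a ha e => ((H.vod (hX b hb) hn').mem_or_sub (H.vod (hX a ha) hn')).resolve_left
        fun e' => hc ⟨a, ha, e, e'⟩⟩ b hb rfl) y1 (H.vod (hX b hb) hn'))
  obtain ⟨r1, r2⟩ := hρ _ (hW _ (sc_om hn') _ (H.nod _ (sc_om hn') a' (hX a' ha') _ sub_rfl))
  have r3 := r2 a' ha' _ (sc_om hn') rfl
  have r4 : ∀ k ∈ n, ap (ap ρ (rs a' (sc n))) k = ap b k := fun k hk =>
    (r3 k (sub_sc n k hk)).trans (rs_val (fn b hb) (fn a' ha') e1 hk (od_om.tr hk hn')).symm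
  refine ⟨_, r1, b, hb, n, hn, r4, (r3 n (mem_sc n)).symm ▸ e2, fun m hm => ?_⟩
  have hm' := hO m hm
  rcases od_tri m (od_om.mem hm') n (od_om.mem hn') with e | rfl | e
  · exact r4 m e ▸ sub_rfl
  · exact absurd hm (hEO m hn)
  · obtain ⟨y, y1, y2, -⟩ := h2 m hm' _ (H.nod m hm' a' (hX a' ha') _ ((od_om.mem hm').sc_sub e))
    exact (H.vod (hX b hb) hm').sub (key m (m_union.2 (.inr hm)) hm'
      (sub_trans hNn ((od_om.mem hm').sub e)) _ y y2 y1 (H.vod (hX _ r1) hm'))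

open Classical in
theorem Unb.split (h : Unb B) : ∃ E O : M, Unb E ∧ Unb O ∧ E ∪ O ⊆ B ∧ ∀ k ∈ E, k ∉ O := by
  obtain ⟨F, -, -, f⟩ := rec_om (∅ : M) fun n x : M => if n ∈ B then up ∅ ∅ \ x else x
  have key : ∀ (p : M → Prop) [Df M fun z : Unit × M => p z.2],
      (∀ n ∈ om M, p (sc n) ↔ (p n ↔ n ∉ B)) → ∃ E : M, Unb E ∧ ∀ k, k ∈ E ↔ k ∈ B ∧ p k := by
    intro p _ hp
    have i1 := @dfR1 M _ p
    obtain ⟨E, hE⟩ := sep B p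
    refine ⟨E, ⟨fun k hk => h.1 k ((hE k).1 hk).1, fun N hN => by_contra fun hc => ?_⟩, hE⟩
    have h1 : ∀ k ∈ B, N ⊆ k → ¬ p k := fun k hk e e' => hc ⟨k, (hE k).2 ⟨hk, e'⟩, e⟩
    obtain ⟨k, k1, k2⟩ := h.2 N hN
    have h2 : ∀ j ∈ om M, k ∈ j → p j := om_ind _ (by simp) fun j hj ih e => by
      rw [hp j hj]
      rcases m_sc.1 e with e | rfl
      · exact iff_of_true (ih e) fun e' => h1 j e' (sub_trans k2 ((od_om.mem hj).sub e)) (ih e)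
      · exact iff_of_false (h1 k k1 k2) (not_not.2 k1)
    obtain ⟨j, j1, j2⟩ := h.2 _ (sc_om (h.1 k k1))
    exact h1 j j1 (sub_trans k2 (sub_trans (sub_sc k) j2)) (h2 j (h.1 j j1) (j2 k (mem_sc k)))
  have e : ∀ n ∈ om M, (∅ : M) ∈ ap F (sc n) ↔ ((∅ : M) ∈ ap F n ↔ n ∉ B) := fun n hn => by
    rw [f n hn]
    by_cases e : n ∈ B <;> simp [e]
  obtain ⟨E, e1, e2⟩ := key (fun n => (∅ : M) ∈ ap F n) e
  obtain ⟨O, o1, o2⟩ := key (fun n => (∅ : M) ∉ ap F n) fun n hn => by rw [e n hn]; tauto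
  exact ⟨E, O, e1, o1, fun k hk => (m_union.1 hk).elim (fun a => ((e2 k).1 a).1)
    fun a => ((o2 k).1 a).1, fun k a b => ((o2 k).1 b).2 ((e2 k).1 a).2⟩

end Pool.Agent.Lib.MP_60e7f9_lc.Prov
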