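import Mathlib
import Pool.Agent.Lib.Common.ZfcProv.Defs

/-!
The Milner-Prikry function `F` in the language of set theory.
-/

set_option autoImplicit false

namespace Pool.Agent.Lib.MP_60e7f9_lc.Prov

/-- `(P, R)` is a poset (`R` is reflexive, antisymmetric, transitive); `x ≤ y` is
`(x, y) ∈ R`. -/
def po (P R : ℕ) : F := and (allIn P fun x => app R x x)
  (and (allIn P fun x => allIn P fun y => imp (app R x y) (imp (app R y x) (eq x y)))
    (allIn P fun x => allIn P fun y => allIn P fun z =>
      imp (app R x y) (imp (app R y z) (app R x z))))

/-- `A` is an antichain of `(P, R)`. -/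
def anti (A P R : ℕ) : F :=
  and (sub A P) (allIn A fun x => allIn A fun y => imp (app R x y) (eq x y))

/-- `I` is an ideal of `(P, R)`: an up-directed initial segment. -/
def idl (I P R : ℕ) : F := and (sub I P)
  (and (allIn I fun x => allIn P fun y => imp (app R y x) (mem y I))
    (allIn I fun x => allIn I fun y => exIn I fun z => and (app R x z) (app R y z)))

/-- Every poset without an antichain of cardinality `m` is a union of fewer than `l`
ideals. `F(m)` is the least cardinal `l` with this property. -/
def bnd (m l : ℕ) : F := all fun P => all fun R => imp (po P R)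
  (imp (all fun A => imp (anti A P R) (neg (and (le A m) (le m A))))
    (ex fun S => and (allIn S fun I => idl I P R)
      (and (exIn l fun a => le S a) (allIn P fun x => exIn S fun I => mem x I))))

/-- For each cardinal `k` there is an infinite cardinal `m ≥ k` with `F(m) > m`. -/
def notId : F := all fun k => imp (crd k) (ex fun m => and (icrd m) (and (sub k m)
  (all fun l => imp (crd l) (imp (bnd m l) (mem m l)))))

end Pool.Agent.Lib.MP_60e7f9_lc.Prov
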