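import Mathlib
import Pool.Agent.Lib.MP_e7ecb4_lc.ProvA
import Pool.Agent.Lib.MP_e7ecb4_lc.ProvDefs

/-!
Existence of a scale in an arbitrary model of ZFC, and the proof of the sentence `notId`.
-/

set_option autoImplicit false
set_option linter.unusedSectionVars false
set_option linter.unusedVariables false
set_option linter.unusedSimpArgs false
set_option synthInstance.maxSize 100000

namespace Pool.Agent.Lib.MP_60e7f9_lc.Prov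

open Pool.Agent.Lib.Common.Forcing

variable {M : Type} [Mod M] {α : Type} [Env M α]

variable {L W P c E O B B' f g h m s : M}

theorem LtB.of (H : ∀ k ∈ B, ap f k ∈ ap g k) : LtB B f g := ⟨∅, emp_om, fun k hk _ => H k hk⟩

theorem LtB.two {f' g' : M} (h1 : LtB B f g) (h2 : LtB B' f' g') : ∃ N ∈ om M,
    ∀ k, N ⊆ k → (k ∈ B → ap f k ∈ ap g k) ∧ (k ∈ B' → ap f' k ∈ ap g' k) := by
  obtain ⟨N, a1, a2⟩ := h1
  obtain ⟨N', b1, b2⟩ := h2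
  exact ⟨_, od_om.union_mem a1 b1, fun k hk =>
    ⟨fun e => a2 k e fun z hz => hk z (m_union.2 (.inl hz)),
      fun e => b2 k e fun z hz => hk z (m_union.2 (.inr hz))⟩⟩

theorem LtB.trans (H : Ctx L W P c) (hB : B ⊆ om M) (hh : h ∈ P) (h1 : LtB B f g)
    (h2 : LtB (om M) g h) : LtB B f h := by
  obtain ⟨N, a1, a2⟩ := h1.two h2
  exact ⟨N, a1, fun k hk e => (H.vod hh (hB k hk)).tr ((a2 k e).1 hk) ((a2 k e).2 (hB k hk))⟩

/-- An increasing unbounded sequence of the least possible length. -/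
structure Scl (P c m s : M) : Prop where
  crd : Crd m
  big : ¬ Le m c
  mem : ∀ i ∈ m, ap s i ∈ P
  inc : ∀ i ∈ m, ∀ j ∈ i, LtB (om M) (ap s j) (ap s i)
  unb : ∀ g ∈ P, ∃ i ∈ m, ¬ LtB (om M) (ap s i) g
  bdd : ∀ a ∈ m, ∀ Z, Z ⊆ P → Le Z a → ∃ g ∈ P, ∀ z ∈ Z, LtB (om M) z g

theorem Ctx.scl (H : Ctx L W P c) (hc : om M ⊆ c) : ∃ m s, Scl P c m s := by
  obtain ⟨k, k1, k2, -⟩ := exists_card P
  obtain ⟨m, m1, ⟨Y, y1, y2, y3⟩, m2⟩ := od_min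
    (fun m => ∃ Y : M, Y ⊆ P ∧ Le Y m ∧ ¬ ∃ g ∈ P, ∀ z ∈ Y, LtB (om M) z g) k1.1
    ⟨P, sub_rfl, k2, fun ⟨g, g1, g2⟩ => by
      obtain ⟨N, a1, a2⟩ := g2 g g1
      exact not_mem_self _ (a2 N a1 sub_rfl)⟩
  have bdd : ∀ a ∈ m, ∀ Z, Z ⊆ P → Le Z a → ∃ g ∈ P, ∀ z ∈ Z, LtB (om M) z g :=
    fun a ha Z z1 z2 => by_contra fun e => m2 a ha ⟨Z, z1, z2, e⟩
  have crd : Crd m := ⟨m1, fun a ha e => y3 (bdd a ha Y y1 (y2.trans e))⟩
  have big : ¬ Le m c := fun e => by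
    obtain ⟨g, g1, g2⟩ := H.small y1 (y2.trans e)
    exact y3 ⟨g, g1, fun z hz => .of fun k hk => g2 k hk z hz⟩
  have hom : om M ⊆ m := (m1.mem_or_sub od_om).resolve_left fun e =>
    big (le_of_sub (sub_trans (od_om.sub e) hc))
  obtain ⟨g0, g1, -⟩ := H.small (emp_sub P) (le_of_sub (emp_sub c))
  obtain ⟨e, e1, e2⟩ := y2
  obtain ⟨s, s1, s2⟩ := rec_ch m1 P (fun b f y => (∀ x ∈ b, LtB (om M) (ap f x) y) ∧
    ∀ z ∈ Y, ap e z = b → LtB (om M) z y) fun b hb f hf => by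
      obtain ⟨x, x1, x2⟩ : ∃ x ∈ P, ∀ z ∈ Y, ap e z = b → z = x := by
        by_cases h : ∃ z ∈ Y, ap e z = b
        · obtain ⟨z, z1, z2⟩ := h
          exact ⟨z, y1 z z1, fun u u1 u2 => e2 u u1 z z1 (u2.trans z2.symm)⟩
        · exact ⟨g0, g1, fun z z1 z2 => absurd ⟨z, z1, z2⟩ h⟩
      obtain ⟨g, a1, a2⟩ := bdd _ (crd.sc_mem hom hb) _ (fun z hz => by
        rcases m_union.1 hz with hz | hz
        · obtain ⟨u, hu, rfl⟩ := m_im.1 hz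
          exact (m_fs.1 hf).2 u hu
        · exact (m_up.1 hz).elim (· ▸ x1) (· ▸ x1)) (le_insert x (le_im f b))
      exact ⟨g, a1, fun u hu => a2 _ (m_union.2 (.inl (m_im.2 ⟨u, hu, rfl⟩))),
        fun z z1 z2 => a2 _ (by simp [x2 z z1 z2])⟩
  exact ⟨m, s, crd, big, (m_fs.1 s1).2, fun i hi j hj => ap_rs (f := s) hj ▸ (s2 i hi).1 j hj,
    fun g hg => by_contra fun hn => y3 ⟨g, hg, fun z hz => ((s2 _ (e1 z hz)).2 z hz rfl).trans H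
      sub_rfl hg (by_contra fun e' => hn ⟨_, e1 z hz, e'⟩)⟩, bdd⟩

theorem Scl.le (S : Scl P c m s) (H : Ctx L W P c) (hB : B ⊆ om M) {i j : M} (hj : j ∈ m)
    (hi : i ∈ m) (e : i ⊆ j) (h : LtB B f (ap s i)) : LtB B f (ap s j) :=
  ((S.crd.1.mem hi).of_sub (S.crd.1.mem hj) e).elim
    (fun e => h.trans H hB (S.mem j hj) (S.inc j hj i e)) (· ▸ h)

theorem Scl.reg (S : Scl P c m s) (H : Ctx L W P c) {I : M} (hI : I ⊆ m)
    (h : Le I c ∨ ∃ a ∈ m, Le I a) : ∃ i ∈ m, I ⊆ i := by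
  have h1 : im s I ⊆ P := fun z hz => by
    obtain ⟨u, hu, rfl⟩ := m_im.1 hz
    exact S.mem u (hI u hu)
  obtain ⟨g, g1, g2⟩ : ∃ g ∈ P, ∀ z ∈ im s I, LtB (om M) z g := by
    rcases h with h | ⟨a, ha, h⟩
    · obtain ⟨g, g1, g2⟩ := H.small h1 ((le_im s I).trans h)
      exact ⟨g, g1, fun z hz => .of fun k hk => g2 k hk z hz⟩
    · exact S.bdd a ha _ h1 ((le_im s I).trans h)
  obtain ⟨i, i1, i2⟩ := S.unb g g1
  refine ⟨i, i1, fun j hj => ?_⟩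
  have h2 := g2 _ (m_im.2 ⟨j, hj, rfl⟩)
  rcases od_tri j (S.crd.1.mem (hI j hj)) i (S.crd.1.mem i1) with e | rfl | e
  exacts [e, absurd h2 i2, absurd ((S.inc j (hI j hj) i e).trans H sub_rfl g1 h2) i2]

/-- The set where `g` is larger than `f`. -/
noncomputable def trc (f g : M) : M := (sep (om M) fun k => ap f k ∈ ap g k).choose

theorem m_trc {k : M} : k ∈ trc f g ↔ k ∈ om M ∧ ap f k ∈ ap g k :=
  (sep (om M) fun k => ap f k ∈ ap g k).choose_spec k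

instance (s t : α → M) [Tm s] [Tm t] : Tm fun a => trc (s a) (t a) :=
  .ofMem _ (by simp only [m_trc]; infer_instance)

theorem exists_sec (T : M) (φ : M → M) [h : Tm fun z : Unit × M => φ z.2]
    (hφ : ∀ t, φ t ⊆ om M) : ∃ S : M, S ⊆ T ∧ Le S (pw (om M)) ∧ ∀ t ∈ T, ∃ u ∈ S, φ u = φ t := by
  have i1 := @tmR1 M _ φ h
  obtain ⟨A, hA⟩ := sep (pw (om M)) fun a => ∃ t ∈ T, φ t = a
  obtain ⟨f, -, hf⟩ := ch A (fun a t => t ∈ T ∧ φ t = a) fun a ha => ((hA a).1 ha).2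
  refine ⟨im f A, fun z hz => ?_, (le_im f A).trans (le_of_sub fun a ha => ((hA a).1 ha).1),
    fun t ht => ?_⟩
  · obtain ⟨u, hu, rfl⟩ := m_im.1 hz
    exact (hf u hu).1
  · have := (hA _).2 ⟨m_pw.2 (hφ t), t, ht, rfl⟩
    exact ⟨_, m_im.2 ⟨_, this, rfl⟩, (hf _ this).2⟩

theorem Scl.coord (S : Scl P c m s) (H : Ctx L W P c) (hc : pw (om M) ⊆ c) (h0 : om M ⊆ c) :
    ∃ B, Unb B ∧ ∀ h ∈ P, ∃ i ∈ m, LtB B h (ap s i) := by
  have ts : ∀ f g : M, trc f g ⊆ om M := fun _ _ k hk => (m_trc.1 hk).1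
  obtain ⟨d, -, hd⟩ := ch P (fun h i => i ∈ m ∧ ∀ j ∈ m, LtB (trc h (ap s j)) h (ap s i))
    fun h hh => by
      obtain ⟨I, a1, a2, a3⟩ := exists_sec m (fun j => trc h (ap s j)) fun _ => ts _ _
      obtain ⟨i, i1, i2⟩ := S.reg H a1 (.inl (a2.trans (le_of_sub hc)))
      refine ⟨i, i1, fun j hj => ?_⟩
      obtain ⟨u, u1, u2⟩ := a3 j hj
      exact u2 ▸ S.le H (ts _ _) i1 (a1 u u1) ((S.crd.1.mem i1).sub (i2 u u1))
        (.of fun k hk => (m_trc.1 hk).2)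
  obtain ⟨T, a1, a2, a3⟩ := exists_sec P (fun h => trc h (ap s (ap d h))) fun _ => ts _ _
  obtain ⟨g, g1, g2⟩ := H.small a1 (a2.trans (le_of_sub hc))
  refine ⟨trc g (ap s (ap d g)), ⟨ts _ _, fun N hN => by_contra fun hn => ?_⟩,
    fun h hh => ⟨_, (hd h hh).1, ?_⟩⟩
  · obtain ⟨g', b1, b2⟩ := H.small (S := up g g) (by simp [sub_def, g1])
      ((up_le g g).trans (le_of_sub h0))
    obtain ⟨i, i1, i2⟩ := S.unb g' b1
    obtain ⟨N', c1, c2⟩ := (hd g g1).2 i i1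
    refine i2 ⟨_, od_om.union_mem hN c1, fun k hk e => ?_⟩
    refine (H.vod (S.mem i i1) hk).sub_mem (H.vod b1 hk) ?_ (b2 k hk g (by simp))
    exact ((H.vod g1 hk).mem_or_sub (H.vod (S.mem i i1) hk)).resolve_left fun e' =>
      hn ⟨k, m_trc.2 ⟨hk, c2 k (m_trc.2 ⟨hk, e'⟩) fun z hz => e z (m_union.2 (.inr hz))⟩,
        fun z hz => e z (m_union.2 (.inl hz))⟩
  · obtain ⟨u, u1, u2⟩ := a3 h hh
    obtain ⟨N, c1, c2⟩ := (hd u (a1 u u1)).2 _ (hd g g1).1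
    refine ⟨N, c1, fun k hk e => (m_trc.1 (u2 ▸ m_trc.2 ⟨ts _ _ k hk, c2 k (m_trc.2
      ⟨ts _ _ k hk, ?_⟩) e⟩)).2⟩
    exact (H.vod (S.mem _ (hd g g1).1) (ts _ _ k hk)).tr (g2 k (ts _ _ k hk) u u1) (m_trc.1 hk).2

theorem exists_ctx {k : M} (hk : Od k) (h : om M ⊆ k) :
    ∃ L W P, Ctx L W P (pw (om M) ∪ k) := by
  obtain ⟨u, -, u1, u2⟩ := rec_om k fun _ x => hs (hs (pw (pr (om M) x) ∪ (pw (om M) ∪ x)))
  have w : ∀ x z : M, Od z → z ⊆ x → z ∈ hs (pw (pr (om M) x) ∪ (pw (om M) ∪ x)) :=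
    fun x z a b => m_hs.2 ⟨a, le_of_sub fun y hy => by simp [b y hy]⟩
  have w2 : ∀ x : M, Od x → x ⊆ hs (hs (pw (pr (om M) x) ∪ (pw (om M) ∪ x))) := fun x a =>
    sub_trans ((od_hs _).sub (w x x a sub_rfl)) ((od_hs _).sub (mem_hs (od_hs _)))
  have u3 : ∀ n ∈ om M, Od (ap u n) ∧ k ⊆ ap u n ∧ ∀ j ∈ n, ap u (sc j) ⊆ ap u n :=
    om_ind _ ⟨u1.symm ▸ hk, u1.symm ▸ sub_rfl, by simp⟩ fun n hn ih => by
      have e : ap u n ⊆ ap u (sc n) := u2 n hn ▸ w2 _ ih.1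
      exact ⟨u2 n hn ▸ od_hs _, sub_trans ih.2.1 e, fun j hj => (m_sc.1 hj).elim
        (fun a => sub_trans (ih.2.2 j a) e) (· ▸ sub_rfl)⟩
  obtain ⟨L, -, hL⟩ := lam (om M) fun n => ap u (sc n)
  obtain ⟨W, -, hW⟩ := lam (om M) fun n => pw (pr (om M) (ap u n)) ∪ (pw (om M) ∪ ap u n)
  obtain ⟨P, hP⟩ := sep (fs (om M) (sU (im L (om M)))) fun f => ∀ k ∈ om M, ap f k ∈ ap L k
  have hP' : ∀ f, f ∈ P ↔ Fn f (om M) ∧ ∀ k ∈ om M, ap f k ∈ ap L k := fun f => (hP f).trans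
    ⟨fun a => ⟨(m_fs.1 a.1).1, a.2⟩, fun a => ⟨m_fs.2 ⟨a.1, fun x hx =>
      m_sU.2 ⟨_, m_im.2 ⟨x, hx, rfl⟩, a.2 x hx⟩⟩, a.2⟩⟩
  refine ⟨L, W, P, fun n hn => hL n hn ▸ (u3 _ (sc_om hn)).1, hP', fun n hn Z z1 z2 => ?_,
    fun n hn f hf j hj => ?_, fun n hn z hz => ?_⟩
  · rw [hL n hn, u2 n hn] at z1 ⊢
    rw [hW n hn] at z2
    have h1 := fun z hz => w (ap u n) z (od_om.mem hz)
      (sub_trans (od_om.sub hz) (sub_trans h (u3 n hn).2.1))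
    have h2 := sU_hs (od_hs _) h1
      (z2.trans ((le_total' _ _).resolve_right (not_le_hs _))) z1
    exact ⟨_, sc_hs (od_hs _) h1 h2, fun z hz => ((od_hs _).mem (z1 z hz)).sub_mem
      ((od_hs _).mem h2).sc (fun y hy => m_sU.2 ⟨z, hz, hy⟩) (mem_sc _)⟩
  · obtain ⟨f1, f2⟩ := (hP' f).1 hf
    have hj' := sub_trans hj (od_om.sub hn)
    rw [hW n hn]
    refine m_union.2 (.inl (m_pw.2 fun p hp => ?_))
    obtain ⟨x, hx, rfl⟩ := (f1.rs hj').mem_iff.1 hp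
    exact op_pr.2 ⟨hj' x hx, (u3 n hn).2.2 x (hj x hx) _
      (by rw [ap_rs hx, ← hL x (hj' x hx)]; exact f2 x (hj' x hx))⟩
  · rw [hW n hn]
    exact m_union.2 (.inr (m_union.2 ((m_union.1 hz).imp id ((u3 n hn).2.1 z))))

theorem notId_mod (k : M) (hk : Crd k) :
    ∃ m : M, (Crd m ∧ om M ⊆ m) ∧ k ⊆ m ∧ ∀ l : M, Crd l →
    (∀ P R : M, ((∀ x ∈ P, op x x ∈ R) ∧ (∀ x ∈ P, ∀ y ∈ P, op x y ∈ R → op y x ∈ R → x = y) ∧
        ∀ x ∈ P, ∀ y ∈ P, ∀ z ∈ P, op x y ∈ R → op y z ∈ R → op x z ∈ R) →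
      (∀ A : M, (A ⊆ P ∧ ∀ x ∈ A, ∀ y ∈ A, op x y ∈ R → x = y) → ¬ (Le A m ∧ Le m A)) →
      ∃ S : M, (∀ I ∈ S, I ⊆ P ∧ (∀ x ∈ I, ∀ y ∈ P, op y x ∈ R → y ∈ I) ∧
        ∀ x ∈ I, ∀ y ∈ I, ∃ z ∈ I, op x z ∈ R ∧ op y z ∈ R) ∧ (∃ a ∈ l, Le S a) ∧
        ∀ x ∈ P, ∃ I ∈ S, x ∈ I) → m ∈ l := by
  have ok : Od (k ∪ om M) := by rcases hk.1.union od_om with e | e <;> rw [e]; exacts [hk.1, od_om]
  obtain ⟨L, W, P, H⟩ := exists_ctx ok fun z hz => m_union.2 (.inr hz)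
  have h0 : om M ⊆ pw (om M) ∪ (k ∪ om M) := fun z hz => by simp [hz]
  obtain ⟨m, s, S⟩ := H.scl h0
  obtain ⟨B, hB, hd⟩ := S.coord H (fun z hz => m_union.2 (.inl hz)) h0
  obtain ⟨E, O, hE, hO, hs, hEO⟩ := hB.split
  have h1 : k ∪ om M ⊆ m := (S.crd.1.mem_or_sub ok).resolve_left fun e =>
    S.big (le_of_sub fun z hz => m_union.2 (.inr (ok.tr hz e)))
  refine ⟨m, ⟨S.crd, fun z hz => h1 z (m_union.2 (.inr hz))⟩,
    fun z hz => h1 z (m_union.2 (.inl hz)), fun l hl hb => by_contra fun hn => ?_⟩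
  have hC : im s m ⊆ P := fun z hz => by
    obtain ⟨u, hu, rfl⟩ := m_im.1 hz
    exact S.mem u hu
  obtain ⟨R, hR⟩ := sep (pr P P) fun p => p1 p = p2 p ∨ RelF E O (p1 p) (p2 p)
  have r : ∀ x ∈ im s m, ∀ y ∈ im s m, op x y ∈ R ↔ x = y ∨ RelF E O x y := fun x hx y hy => by
    simp [hR, hC x hx, hC y hy]
  obtain ⟨T, t1, ⟨a, a1, a2⟩, t2⟩ := hb (im s m) R ⟨fun x hx => (r x hx x hx).2 (.inl rfl),
    fun x hx y hy e e' => ((r x hx y hy).1 e).elim id fun e => ((r y hy x hx).1 e').elim Eq.symm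
      fun e' => absurd (e.trans H hE.1 (hC x hx) e') RelF.irrefl,
    fun x hx y hy z hz e e' => ((r x hx y hy).1 e).elim (· ▸ e') fun e => (r x hx z hz).2 (.inr
      (((r y hy z hz).1 e').elim (· ▸ e) (e.trans H hE.1 (hC x hx))))⟩ (by
    rintro A ⟨a1, a2⟩ ⟨-, a3⟩
    obtain ⟨x, hx, y, hy, e⟩ := H.rel hE hO.1 hEO (sub_trans a1 hC) fun h hh => by
      obtain ⟨i, i1, N, i2, i3⟩ := hd h hh
      by_contra hc
      refine S.crd.2 i i1 (a3.trans ((le_of_sub fun z hz => ?_).trans (le_im s i)))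
      obtain ⟨j, hj, rfl⟩ := m_im.1 (a1 z hz)
      exact m_im.2 ⟨j, ((S.crd.1.mem hj).mem_or_sub (S.crd.1.mem i1)).resolve_right fun e =>
        hc ⟨_, hz, S.le H (sub_trans hs hB.1) hj i1 e ⟨N, i2, fun k hk => i3 k (hs k hk)⟩⟩, rfl⟩
    exact RelF.irrefl (a2 x hx y hy ((r x (a1 x hx) y (a1 y hy)).2 (.inr e)) ▸ e))
  obtain ⟨d, -, hd'⟩ := ch T (fun D i => i ∈ m ∧ ∀ j ∈ m, ap s j ∈ D → j ∈ i) fun D hD => by
    obtain ⟨d1, -, d2⟩ := t1 D hD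
    obtain ⟨g, g1, g2⟩ := H.dir hE.1 hO.1 (sub_trans d1 hC) fun x hx y hy => by
      obtain ⟨z, hz, e, e'⟩ := d2 x hx y hy
      exact ⟨z, hz, (r x (d1 x hx) z (d1 z hz)).1 e, (r y (d1 y hy) z (d1 z hz)).1 e'⟩
    obtain ⟨i, i1, i2⟩ := hd g g1
    refine ⟨i, i1, fun j hj e => ((S.crd.1.mem hj).mem_or_sub (S.crd.1.mem i1)).resolve_right
      fun e' => ?_⟩
    obtain ⟨N, n1, n2⟩ := S.le H hB.1 hj i1 e' i2
    obtain ⟨k, k1, k2⟩ := hO.2 N n1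
    exact not_mem_self _ (g2 _ e k k1 _ (n2 k (hs k (m_union.2 (.inr k1))) k2))
  obtain ⟨i, i1, i2⟩ := S.reg H (I := im d T) (fun z hz => by
    obtain ⟨u, hu, rfl⟩ := m_im.1 hz
    exact (hd' u hu).1) (.inr ⟨a, (S.crd.1.mem_or_sub hl.1).resolve_left hn a a1,
      (le_im d T).trans a2⟩)
  obtain ⟨D, d1, d2⟩ := t2 _ (m_im.2 ⟨i, i1, rfl⟩)
  exact mem_asymm ((hd' D d1).2 i i1 d2) (i2 _ (m_im.2 ⟨D, d1, rfl⟩))

theorem ev_notId (v : ℕ → M) : Ev Mod.E (notId 0) v := by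
  simp only [notId, bnd, idl, anti, po, icrd, crd, ord, le, nat, ind, emp, suc, leq, app, opr, upr,
    sub, allIn, exIn, ev_all, ev_ex, ev_imp, ev_neg, ev_and, ev_mem, ev_iff, ev_or, ev_eq,
    Nat.reduceAdd, Nat.reduceSub, cons_zero, cons_succ, E_def, s_emp, s_suc, s_op, s_up,
    exists_eq_right, s_om, s_sub, s_le, s_od, s_crd]
  exact notId_mod (M := M)

theorem prf_notId : Prf [] (notId 0) :=
  complete fun M E h v => @ev_notId M ⟨E, v, h⟩ v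

end Pool.Agent.Lib.MP_60e7f9_lc.Prov
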